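import Pool.Agent.H45.Nev.Stmts
import Pool.Agent.H95.Nev.Cur
import Pool.Agent.H71.Nev343.Cutoffs
import Pool.Agent.H64.Nev.Defining

/-!
# The test system on the manifold
-/

open MeasureTheory Set Metric Filter Topology ProbabilityTheory
open scoped ContDiff ENNReal Manifold

set_option linter.unusedSectionVars false

namespace Pool.Agent.H42.Nev
open Pool.Agent.H45.Nev Pool.Agent.H95.Nev Pool.Agent.H71.Nev343

variable {E : Type*} [NormedAddCommGroup E] [NormedSpace ℂ E] [FiniteDimensional ℂ E]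
  {M : Type*} [TopologicalSpace M] [ChartedSpace E M] [IsManifold 𝓘(ℂ, E) ω M]
  [CompactSpace M] [T2Space M]

section lapl

variable {F : SingFoliation E M} {κ : Form11 E M}

omit [FiniteDimensional ℂ E] [IsManifold 𝓘(ℂ, E) ω M] [CompactSpace M] [T2Space M] in
lemma leafLap_eq_dens (hκ : IsHermitianMetric κ) {u : M → ℝ} {θ : Form11 E M}
    (hθ : ∀ (x : M) (v : TangentSpace 𝓘(ℂ, E) x),
      θ.1 x v v = (1 / (2 * Real.pi) * mLevS u x v v : ℝ)) (x : M) :
    leafLap F κ u x = 2 * Real.pi * (dens F κ θ x).re := by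
  by_cases hx : x ∈ F.sing
  · rw [leafLap_sing hx]
    unfold dens
    rw [if_pos hx]
    simp
  · have h1 : κ.1 x (F.gen x) (F.gen x) = ((κ.1 x (F.gen x) (F.gen x)).re : ℂ) :=
      metric_eq hκ (gn F x)
    unfold leafLap dens
    rw [if_neg hx, if_neg hx, hθ, h1, ← Complex.ofReal_div, Complex.ofReal_re]
    have hpi := Real.pi_ne_zero
    simp only [Complex.ofReal_re]
    field_simp

lemma leafLap_meas (hκ : IsHermitianMetric κ) [MeasurableSpace M] [BorelSpace M]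
    (hddc : ∀ u, IsSmooth E u → ∃ θ : Form11 E M, IsDdc u θ ∧
      ∀ (x : M) (v : TangentSpace 𝓘(ℂ, E) x),
        θ.1 x v v = (1 / (2 * Real.pi) * mLevS u x v v : ℝ)) {u : M → ℝ} (hu : IsSmooth E u) :
    Measurable (leafLap F κ u) ∧ ∃ C, ∀ x, |leafLap F κ u x| ≤ C := by
  obtain ⟨θ, -, hθ⟩ := hddc u hu
  obtain ⟨hm, C, hC⟩ := dens_meas F κ hκ θ
  have h : leafLap F κ u = fun x => 2 * Real.pi * (dens F κ θ x).re :=
    funext fun x => leafLap_eq_dens hκ hθ x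
  rw [h]
  refine ⟨(Complex.measurable_re.comp hm).const_mul _, 2 * Real.pi * C, fun x => ?_⟩
  rw [abs_mul, abs_of_pos (by positivity)]
  exact mul_le_mul_of_nonneg_left ((Complex.abs_re_le_norm _).trans (hC x)) (by positivity)

lemma leafLap_integral (hκ : IsHermitianMetric κ) [MeasurableSpace M] [BorelSpace M]
    (μ : Measure M) [IsFiniteMeasure μ] (hμ : μ F.sing = 0)
    (T : Form11 E M →ₗ[ℂ] ℂ) (hT : F.IsHarmonicCurrent T) (htr : IsTraceMeasure T κ μ)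
    (hddc : ∀ u, IsSmooth E u → ∃ θ : Form11 E M, IsDdc u θ ∧
      ∀ (x : M) (v : TangentSpace 𝓘(ℂ, E) x),
        θ.1 x v v = (1 / (2 * Real.pi) * mLevS u x v v : ℝ)) {u : M → ℝ} (hu : IsSmooth E u) :
    ∫ x, leafLap F κ u x ∂μ = 0 := by
  obtain ⟨θ, hd, hθ⟩ := hddc u hu
  obtain ⟨hm, C, hC⟩ := dens_meas F κ hκ θ
  have hint : Integrable (dens F κ θ) μ :=
    Integrable.of_bound hm.aestronglyMeasurable C (ae_of_all _ hC)
  have h0 : T θ = 0 := hT.2.1 u hu θ hd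
  rw [current_formula F κ hκ μ hμ T hT.1 hT.2.2 htr θ] at h0
  have h1 := integral_re hint
  simp only [RCLike.re_eq_complex_re] at h1
  rw [h0] at h1
  calc ∫ x, leafLap F κ u x ∂μ = ∫ x, 2 * Real.pi * (dens F κ θ x).re ∂μ := by
        congr 1; funext x; exact leafLap_eq_dens hκ hθ x
    _ = 2 * Real.pi * ∫ x, (dens F κ θ x).re ∂μ := integral_const_mul _ _
    _ = 0 := by rw [h1]; simp

lemma leafGrd_eq {u : M → ℝ} (hu : IsSmooth E u) (x : M) :
    leafGrd F κ u x = (leafLap F κ (fun x => u x * u x) x - 2 * u x * leafLap F κ u x) / 2 := by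
  have hf : ContDiff ℝ ∞ (fun t : ℝ => t * t) := contDiff_id.mul contDiff_id
  have h := leafLap_comp F κ hu (f := fun t : ℝ => t * t) (x := x)
    (hf.contDiffAt.of_le (WithTop.coe_le_coe.2 le_top))
  have hd1 : deriv (fun t : ℝ => t * t) = fun t => 2 * t := by
    funext t
    have := (hasDerivAt_id t).mul (hasDerivAt_id t)
    have h2 : HasDerivAt (fun t : ℝ => t * t) (1 * t + t * 1) t := this
    rw [h2.deriv]; ring
  have hd2 : deriv (deriv (fun t : ℝ => t * t)) (u x) = 2 := by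
    rw [hd1]
    have := (hasDerivAt_id (u x)).const_mul (2 : ℝ)
    have h2 : HasDerivAt (fun t : ℝ => 2 * t) (2 * 1) (u x) := this
    rw [h2.deriv]; ring
  rw [hd2, hd1] at h
  have h3 : (fun t : ℝ => t * t) ∘ u = fun x => u x * u x := rfl
  rw [h3] at h
  rw [h]
  ring

lemma isSmooth_mul {u v : M → ℝ} (hu : IsSmooth E u) (hv : IsSmooth E v) :
    IsSmooth E (fun x => u x * v x) := by
  have hu' : ContMDiff 𝓘(ℝ, E) 𝓘(ℝ, ℝ) ∞ u := hu
  have hv' : ContMDiff 𝓘(ℝ, E) 𝓘(ℝ, ℝ) ∞ v := hv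
  exact hu'.mul hv'

lemma exists_bound {u : M → ℝ} (hu : Continuous u) : ∃ C, ∀ x, |u x| ≤ C := by
  obtain ⟨R, hR⟩ := isCompact_univ.exists_bound_of_continuousOn hu.continuousOn
  exact ⟨R, fun x => hR x (mem_univ x)⟩

lemma leafGrd_meas (hκ : IsHermitianMetric κ) [MeasurableSpace M] [BorelSpace M]
    (hddc : ∀ u, IsSmooth E u → ∃ θ : Form11 E M, IsDdc u θ ∧
      ∀ (x : M) (v : TangentSpace 𝓘(ℂ, E) x),
        θ.1 x v v = (1 / (2 * Real.pi) * mLevS u x v v : ℝ)) {u : M → ℝ} (hu : IsSmooth E u) :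
    Measurable (leafGrd F κ u) ∧ ∃ C, ∀ x, |leafGrd F κ u x| ≤ C := by
  obtain ⟨hm1, C1, hC1⟩ := leafLap_meas (F := F) hκ hddc hu
  obtain ⟨hm2, C2, hC2⟩ := leafLap_meas (F := F) hκ hddc (isSmooth_mul hu hu)
  have hc : Continuous u := ContMDiff.continuous hu
  obtain ⟨C0, hC0⟩ := exists_bound hc
  have h : leafGrd F κ u = fun x =>
      (leafLap F κ (fun x => u x * u x) x - 2 * u x * leafLap F κ u x) / 2 :=
    funext fun x => leafGrd_eq hu x
  rw [h]
  refine ⟨(hm2.sub ((hc.measurable.const_mul 2).mul hm1)).div_const 2,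
    (C2 + 2 * C0 * C1) / 2, fun x => ?_⟩
  rw [abs_div, abs_two]
  apply div_le_div_of_nonneg_right _ (by norm_num)
  refine (abs_sub _ _).trans ?_
  apply add_le_add (hC2 x)
  rw [abs_mul, abs_mul, abs_two]
  have := abs_nonneg (u x)
  have h0 : 0 ≤ C0 := this.trans (hC0 x)
  gcongr
  · exact hC0 x
  · exact hC1 x

end lapl

section box
variable {F : SingFoliation E M} {κ : Form11 E M} {m : ℕ} {Λ : Lam M (Fin m → ℂ)}

omit [FiniteDimensional ℂ E] [IsManifold 𝓘(ℂ, E) ω M] [CompactSpace M] [T2Space M] in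
lemma symm_mem (i : Λ.ι) {t : Fin m → ℂ} (ht : t ∈ Λ.W i) {z : ℂ} (hz : z ∈ ball (0 : ℂ) 1) :
    (z, t) ∈ (Λ.box i).target := by
  rw [Λ.target_eq i]
  exact ⟨hz, ht⟩

omit [FiniteDimensional ℂ E] [IsManifold 𝓘(ℂ, E) ω M] [CompactSpace M] [T2Space M] in
lemma symm_notMem (hΛ : GoodBoxes F κ Λ) (i : Λ.ι) {t : Fin m → ℂ} (ht : t ∈ Λ.W i) {z : ℂ}
    (hz : z ∈ ball (0 : ℂ) 1) : (Λ.box i).symm (z, t) ∉ F.sing := by
  have h1 : (Λ.box i).symm (z, t) ∈ Λ.reg :=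
    mem_iUnion.2 ⟨i, (Λ.box i).map_target (symm_mem i ht hz)⟩
  rw [hΛ.reg_eq] at h1
  exact h1

lemma L_eq_of (hκ : IsHermitianMetric κ) (hΛ : GoodBoxes F κ Λ) {u : M → ℝ} (hu : IsSmooth E u)
    (i : Λ.ι) {t : Fin m → ℂ} (ht : t ∈ Λ.W i) {z : ℂ} (hz : z ∈ ball (0 : ℂ) 1) :
    lap (fun z => u ((Λ.box i).symm (z, t))) z =
      Λ.ρ i (z, t) * leafLap F κ u ((Λ.box i).symm (z, t)) := by
  have hcomp : CompleteSpace E := FiniteDimensional.complete ℂ E
  obtain ⟨-, htan, hne, hρ⟩ := hΛ.plaque i t ht z hz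
  have hx := symm_notMem hΛ i ht hz
  have hev : ∀ᶠ ζ in 𝓝 z, MDifferentiableAt 𝓘(ℂ, ℂ) 𝓘(ℂ, E) (fun z => (Λ.box i).symm (z, t)) ζ := by
    filter_upwards [isOpen_ball.mem_nhds hz] with ζ hζ
    exact (hΛ.plaque i t ht ζ hζ).1
  have hu2 : ContDiffAt ℝ 2 (u ∘ (chartAt E ((Λ.box i).symm (z, t))).symm)
      (chartAt E ((Λ.box i).symm (z, t)) ((Λ.box i).symm (z, t))) :=
    (hu.contDiffAt_symm (chartAt_mem_max _) (mem_chart_target E _)).of_le
      (WithTop.coe_le_coe.2 le_top)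
  have h1 := lap_curve (u := u) hev hu2
  obtain ⟨c, hc⟩ := tangent_iff hx htan
  have h2 : lap (fun z => u ((Λ.box i).symm (z, t))) z =
      lap (u ∘ fun z => (Λ.box i).symm (z, t)) z := rfl
  rw [h2, h1, hρ]
  set x := (Λ.box i).symm (z, t) with hxdef
  have h3 : ∀ w : TangentSpace 𝓘(ℂ, E) x, w = c • F.gen x →
      mLevS u x w w = (κ.1 x w w).re * leafLap F κ u x := by
    rintro w rfl
    have h4 : mLevS u x (c • F.gen x) (c • F.gen x) = ‖c‖ ^ 2 * mLevS u x (F.gen x) (F.gen x) :=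
      levS_smul hu2 c (gn F x)
    have h5 : κ.1 x (c • F.gen x) (c • F.gen x) =
        ((‖c‖ ^ 2 * (κ.1 x (F.gen x) (F.gen x)).re : ℝ) : ℂ) := by
      have h6 : ev κ.1 x (c • gn F x) (c • gn F x) =
          c * ((starRingEnd ℂ) c * ev κ.1 x (gn F x) (gn F x)) := by
        rw [ev_smul_left, ev_smul_right]
      have h7 : ev κ.1 x (gn F x) (gn F x) = ((ev κ.1 x (gn F x) (gn F x)).re : ℂ) :=
        metric_eq hκ (gn F x)
      refine Eq.trans (show _ = ev κ.1 x (c • gn F x) (c • gn F x) from rfl) ?_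
      rw [h6, ← mul_assoc, Complex.mul_conj, Complex.normSq_eq_norm_sq, h7]
      push_cast
      rfl
    have hpos : 0 < (κ.1 x (F.gen x) (F.gen x)).re := (hκ x _ (gen_ne hx)).1
    rw [h4, h5, Complex.ofReal_re]
    unfold leafLap
    rw [if_neg hx]
    field_simp
  exact h3 _ hc

lemma smooth_leaf_of (hΛ : GoodBoxes F κ Λ) {u : M → ℝ} (hu : IsSmooth E u)
    (i : Λ.ι) {t : Fin m → ℂ} (ht : t ∈ Λ.W i) :
    ContDiffOn ℝ ∞ (fun z => u ((Λ.box i).symm (z, t))) (ball 0 1) := by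
  have hu' : ContMDiff 𝓘(ℝ, E) 𝓘(ℝ, ℝ) ∞ u := hu
  have h1 : ContMDiffOn 𝓘(ℝ, ℂ) 𝓘(ℝ, ℂ × (Fin m → ℂ)) ∞ (fun z : ℂ => (z, t)) (ball 0 1) :=
    (contDiff_id.prodMk contDiff_const).contMDiff.contMDiffOn
  have h2 := (hΛ.smooth_symm i).comp h1 (fun z hz => symm_mem i ht hz)
  have h3 := hu'.comp_contMDiffOn h2
  exact contMDiffOn_iff_contDiffOn.1 h3

lemma prod_of (hΛ : GoodBoxes F κ Λ) (i : Λ.ι) {v : ℂ → ℝ} (hv : ContDiff ℝ ∞ v)
    (hvc : HasCompactSupport v) (hvs : tsupport v ⊆ ball 0 1) {w : (Fin m → ℂ) → ℝ}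
    (hw : ContDiff ℝ ∞ w) (hwc : HasCompactSupport w) (hws : tsupport w ⊆ Λ.W i) :
    ∃ u, IsSmooth E u ∧ (∀ x ∈ (Λ.box i).source, u x = v (Λ.box i x).1 * w (Λ.box i x).2) ∧
        ∀ x ∉ (Λ.box i).source, u x = 0 := by
  classical
  set K : Set (ℂ × (Fin m → ℂ)) := tsupport v ×ˢ tsupport w with hK
  have hKc : IsCompact K := hvc.isCompact.prod hwc.isCompact
  have hKt : K ⊆ (Λ.box i).target := by
    rw [Λ.target_eq i]
    exact prod_mono hvs hws
  have hK' : IsClosed ((Λ.box i).symm '' K) :=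
    (hKc.image_of_continuousOn ((Λ.box i).continuousOn_symm.mono hKt)).isClosed
  set u : M → ℝ := fun x => if x ∈ (Λ.box i).source then
    v (Λ.box i x).1 * w (Λ.box i x).2 else 0 with hu
  refine ⟨u, ?_, fun x hx => by simp only [hu, if_pos hx], fun x hx => by
    simp only [hu, if_neg hx]⟩
  intro x
  by_cases hx : x ∈ (Λ.box i).source
  · have h1 : ContMDiffAt 𝓘(ℝ, E) 𝓘(ℝ, ℂ × (Fin m → ℂ)) ∞ (Λ.box i) x :=
      (hΛ.smooth i).contMDiffAt ((Λ.box i).open_source.mem_nhds hx)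
    have h2 : ContDiff ℝ ∞ (fun p : ℂ × (Fin m → ℂ) => v p.1 * w p.2) :=
      (hv.comp contDiff_fst).mul (hw.comp contDiff_snd)
    have h3 := h2.contMDiff.contMDiffAt.comp x h1
    refine h3.congr_of_eventuallyEq ?_
    filter_upwards [(Λ.box i).open_source.mem_nhds hx] with y hy
    simp only [hu, if_pos hy, Function.comp_apply]
  · have hxK : x ∉ (Λ.box i).symm '' K := by
      rintro ⟨p, hp, rfl⟩
      exact hx ((Λ.box i).map_target (hKt hp))
    have h1 : u =ᶠ[𝓝 x] fun _ => 0 := by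
      filter_upwards [hK'.isOpen_compl.mem_nhds hxK] with y hy
      by_cases hys : y ∈ (Λ.box i).source
      · simp only [hu, if_pos hys]
        have h2 : Λ.box i y ∉ K := fun h => hy ⟨_, h, (Λ.box i).left_inv hys⟩
        have h3 : (Λ.box i y).1 ∉ tsupport v ∨ (Λ.box i y).2 ∉ tsupport w := by
          by_contra hcon
          push Not at hcon
          exact h2 ⟨hcon.1, hcon.2⟩
        rcases h3 with h3 | h3
        · rw [image_eq_zero_of_notMem_tsupport h3, zero_mul]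
        · rw [image_eq_zero_of_notMem_tsupport h3, mul_zero]
      · simp only [hu, if_neg hys]
    exact contMDiffAt_const.congr_of_eventuallyEq h1

lemma pou_of (Λ : Lam M (Fin m → ℂ)) (K : Set M) (hK : IsCompact K) (hKr : K ⊆ Λ.reg) :
    ∃ (n : ℕ) (η : Fin n → M → ℝ) (j : Fin n → Λ.ι),
    (∀ k, IsSmooth E (η k) ∧ (∀ x, 0 ≤ η k x) ∧ IsCompact (tsupport (η k)) ∧
      tsupport (η k) ⊆ (Λ.box (j k)).source) ∧ ∀ x ∈ K, ∑ k, η k x = 1 := by
  classical
  have hreal : IsManifold 𝓘(ℝ, E) ∞ M := isManifold_real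
  have hfd : FiniteDimensional ℝ E := FiniteDimensional.complexToReal E
  have hex : ∀ a : K, ∃ (i : Λ.ι) (f : SmoothBumpFunction 𝓘(ℝ, E) (a : M)),
      tsupport f ⊆ (Λ.box i).source := by
    intro a
    obtain ⟨i, hi⟩ := mem_iUnion.1 (hKr a.2)
    obtain ⟨f, -, hf⟩ := (SmoothBumpFunction.nhds_basis_tsupport (I := 𝓘(ℝ, E)) (a : M)).mem_iff.1
      ((Λ.box i).open_source.mem_nhds hi)
    exact ⟨i, f, hf⟩
  choose i f hf using hex
  obtain ⟨t, ht⟩ := hK.elim_nhds_subcover' (fun a ha => {x | f ⟨a, ha⟩ x = 1})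
    (fun a ha => (f ⟨a, ha⟩).eventuallyEq_one)
  set e := t.equivFin.symm with he
  refine ⟨t.card, fun k x => f (e k) x * ∏ l with l < k, (1 - f (e l) x), fun k => i (e k),
    fun k => ⟨?_, fun x => ?_, ?_, ?_⟩, fun x hx => ?_⟩
  · have h1 : ∀ a, ContMDiff 𝓘(ℝ, E) 𝓘(ℝ, ℝ) ∞ (f a) := fun a => (f a).contMDiff
    have h2 : ContMDiff 𝓘(ℝ, E) 𝓘(ℝ, ℝ) ∞
        (fun x => f (e k) x * ∏ l with l < k, (1 - f (e l) x)) := by
      refine (h1 _).mul (contMDiff_finsetProd fun l _ => ?_)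
      exact contMDiff_const.sub (h1 _)
    exact h2
  · exact mul_nonneg (f _).nonneg (Finset.prod_nonneg fun l _ => sub_nonneg.2 (f _).le_one)
  · exact (isClosed_tsupport _).isCompact
  · refine (closure_mono ?_).trans (hf _)
    intro x hx
    simp only [Function.mem_support, ne_eq] at hx ⊢
    exact left_ne_zero_of_mul hx
  · have h1 := Finset.prod_one_sub_ordered (Finset.univ : Finset (Fin t.card))
      (fun k => f (e k) x)
    have h2 : ∏ k, (1 - f (e k) x) = 0 := by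
      obtain ⟨a, ha, hxa⟩ := mem_iUnion₂.1 (ht hx)
      refine Finset.prod_eq_zero (Finset.mem_univ (e.symm ⟨a, ha⟩)) ?_
      rw [Equiv.apply_symm_apply, sub_eq_zero]
      exact hxa.symm
    rw [h2] at h1
    linarith

end box

/-- P5. The test system on the manifold. -/
theorem exists_testSys (F : SingFoliation E M) (κ : Form11 E M) (hκ : IsHermitianMetric κ)
    [MeasurableSpace M] [BorelSpace M] (μ : Measure M) [IsFiniteMeasure μ] (hμ : μ F.sing = 0)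
    (T : Form11 E M →ₗ[ℂ] ℂ) (hT : F.IsHarmonicCurrent T) (htr : IsTraceMeasure T κ μ)
    {m : ℕ} (Λ : Lam M (Fin m → ℂ)) (hΛ : GoodBoxes F κ Λ)
    (hddc : ∀ u, IsSmooth E u → ∃ θ : Form11 E M, IsDdc u θ ∧
      ∀ (x : M) (v : TangentSpace 𝓘(ℂ, E) x),
        θ.1 x v v = (1 / (2 * Real.pi) * mLevS u x v v : ℝ)) :
    ∃ TS : TestSys Λ μ, TS.D = {u | IsSmooth E u} ∧ TS.L = leafLap F κ := by
  obtain ⟨s, hs, hs0, hs1, C, hC⟩ := Pool.Agent.H64.Nev.exists_defining (F := F) κ hκ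
  obtain ⟨χ, hχ, hχt, hχi⟩ := exists_cutoffs F κ hκ μ hμ
    (fun u hu => by
      obtain ⟨h1, C1, hC1⟩ := leafLap_meas (F := F) hκ hddc hu
      obtain ⟨h2, C2, hC2⟩ := leafGrd_meas (F := F) hκ hddc hu
      exact ⟨h1, h2, max C1 C2, fun x => ⟨(hC1 x).trans (le_max_left _ _),
        (hC2 x).trans (le_max_right _ _)⟩⟩)
    (fun u hu => leafLap_integral hκ μ hμ T hT htr hddc hu) s hs hs0 hs1 C hC
  have hreg : ∀ x, x ∉ Λ.reg → x ∈ F.sing := by
    intro x hx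
    rw [hΛ.reg_eq] at hx
    exact not_not.1 hx
  exact ⟨{
    D := {u | IsSmooth E u}
    L := leafLap F κ
    cont := fun u hu => ContMDiff.continuous hu
    bdd := fun u hu => exists_bound (ContMDiff.continuous hu)
    L_meas := fun u hu => (leafLap_meas hκ hddc hu).1
    L_bdd := fun u hu => (leafLap_meas hκ hddc hu).2
    smooth_leaf := fun u hu i t ht => smooth_leaf_of hΛ hu i ht
    L_eq := fun u hu i t ht z hz => L_eq_of hκ hΛ hu i ht hz
    L_zero := fun u _ x hx => leafLap_sing (hreg x hx)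
    one_mem := contMDiff_const
    lin := fun u hu v hv c => by
      have hu' : ContMDiff 𝓘(ℝ, E) 𝓘(ℝ, ℝ) ∞ u := hu
      have hv' : ContMDiff 𝓘(ℝ, E) 𝓘(ℝ, ℝ) ∞ v := hv
      exact hu'.add (contMDiff_const.mul hv')
    mul := fun u hu v hv => isSmooth_mul hu hv
    comp := fun u hu G hG => isSmooth_comp hu fun x => hG.contDiffAt
    integral_L := fun u hu => leafLap_integral hκ μ hμ T hT htr hddc hu
    prod := fun i v hv hvc hvs w hw hwc hws => by
      obtain ⟨u, hu, h1, h2⟩ := prod_of hΛ i hv hvc hvs hw hwc hws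
      exact ⟨u, hu, h1, h2⟩
    pou := fun K hK hKr => pou_of Λ K hK hKr
    χ := χ
    χ_mem := fun n => (hχ n).1
    χ_range := fun n => (hχ n).2.1
    χ_supp := fun n => by
      obtain ⟨K, hK, hKs, hK0⟩ := (hχ n).2.2
      exact ⟨K, hK, by rw [hΛ.reg_eq]; exact hKs, hK0⟩
    χ_tendsto := fun x hx => hχt x (by rw [hΛ.reg_eq] at hx; exact hx)
    χ_int := hχi
    reg_full := by rw [hΛ.reg_eq, compl_compl]; exact hμ }, rfl, rfl⟩

end Pool.Agent.H42.Nev
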